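import Pool.Agent.Q33.DF4.Final

/-!
Deciding diffeomorphism of homeomorphic 4-manifolds by algorithms with few failures.

A smooth compact 4-manifold is given by a combinatorial manifold, and two of them are diffeomorphic
iff the combinatorial manifolds are PL homeomorphic, that is, stellar equivalent.

* `cx K` is the simplicial complex spanned by the list `K` of vertex lists, `Rz K` its geometric
  realization.
* `CombMfd d C`: the link of every vertex of the complex `C` is stellar equivalent to the boundary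
  of the `d`-simplex or to the `(d - 1)`-simplex.
* `PL C D`: the complexes `C` and `D` are stellar equivalent.
* `Adm d K₁ K₂`: the input is admissible: two combinatorial manifolds of dimension `d`, possibly
  with boundary, with homeomorphic realizations.
* `SameType d L K`: `L` is a combinatorial `d`-manifold, PL homeomorphic and homeomorphic to `K`.
* `Good d N N L`: the list `L` has `N` members, each one a list of `d + 1` different vertices less
  than `N`, and no two of them have the same vertex set.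
* `Fails d (SameType d) R φ K₁ K₂ N₁ N₂`: the set of the pairs of labelled triangulations with `N₁`
  and `N₂` facets, of the same types as `K₁` and `K₂`, on which `φ` fails to decide the relation `R`
  (it does not stop or gives a wrong answer for some order of the facets and their vertices).
* `weight d N` is the product of the positive integers `m < N` with `m ≡ N` modulo `d`.
-/

set_option autoImplicit false

namespace Pool.Agent.Results.MP_d40431_gt.FewFailuresSuffice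

open Pool.Agent.Q33.RS4 Pool.Agent.Q33.DF4 Filter

/-- Few failures for each pair of types can be removed. -/
theorem result :
    -- Q1 has a positive answer iff there is an algorithm with at most exponentially many failures
    ((∃ φ : List (List ℕ) × List (List ℕ) →. Bool, Partrec φ ∧ ∀ K₁ K₂, Adm 4 K₁ K₂ →
        ∃ b ∈ φ (K₁, K₂), (b = true ↔ PL (cx K₁) (cx K₂))) ↔
      ∃ (φ : List (List ℕ) × List (List ℕ) →. Bool) (c N₀ : ℕ), Partrec φ ∧
        ∀ K₁ K₂, Adm 4 K₁ K₂ → ∀ N₁ N₂, N₀ ≤ N₁ → N₀ ≤ N₂ →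
          (Fails 4 (SameType 4) (fun L₁ L₂ => PL (cx L₁) (cx L₂)) φ K₁ K₂ N₁ N₂).ncard ≤
            c ^ (N₁ + N₂)) ∧
    -- all dimensions, all promise problems for pairs, and more failures
    ∀ d : ℕ, 2 ≤ d → (∀ c : ℕ, ∀ᶠ N in atTop, c ^ N ≤ weight d N) ∧
      (∀ K₁ K₂ L₁ L₂, Adm d K₁ K₂ → SameType d L₁ K₁ → SameType d L₂ K₂ →
        Adm d L₁ L₂ ∧ (PL (cx L₁) (cx L₂) ↔ PL (cx K₁) (cx K₂))) ∧
      ∀ (A R : List (List ℕ) → List (List ℕ) → Prop),
        (∀ K₁ K₂, A K₁ K₂ → CombMfd d (cx K₁) ∧ CombMfd d (cx K₂)) →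
        (∀ K₁ K₂ L₁ L₂, A K₁ K₂ → SameType d L₁ K₁ → SameType d L₂ K₂ →
          A L₁ L₂ ∧ (R L₁ L₂ ↔ R K₁ K₂)) →
        (∃ b : Bool, ∀ K₁ K₂, A K₁ K₂ → Rz K₁ = ∅ ∨ Rz K₂ = ∅ → (b = true ↔ R K₁ K₂)) →
        ((∃ φ : List (List ℕ) × List (List ℕ) →. Bool, Partrec φ ∧ ∀ K₁ K₂, A K₁ K₂ →
            ∃ b ∈ φ (K₁, K₂), (b = true ↔ R K₁ K₂)) ↔
          ∃ (φ : List (List ℕ) × List (List ℕ) →. Bool)
            (h : List (List ℕ) × List (List ℕ) → ℕ → ℕ), Partrec φ ∧ Computable₂ h ∧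
            ∀ K₁ K₂, A K₁ K₂ → ∀ q N₁ N₂, h (K₁, K₂) q ≤ N₁ → h (K₁, K₂) q ≤ N₂ →
              q * (Fails d (SameType d) R φ K₁ K₂ N₁ N₂).ncard ≤
                weight d N₁ * weight d N₂) := by
  refine ⟨⟨?_, ?_⟩, fun d hd => ⟨growth (by omega), fun K₁ K₂ L₁ L₂ h h1 h2 =>
    adm_inv h h1 h2, fun A R hA hAR h0 => promise hd A R hA hAR h0⟩⟩
  · rintro ⟨φ, hφ, h⟩
    refine ⟨φ, 0, 0, hφ, fun K₁ K₂ hK N₁ N₂ _ _ => ?_⟩
    have e : Fails 4 (SameType 4) (fun L₁ L₂ => PL (cx L₁) (cx L₂)) φ K₁ K₂ N₁ N₂ = ∅ := by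
      rw [Set.eq_empty_iff_forall_notMem]
      rintro C ⟨L₁, L₂, -, -, -, h1, h2, h3⟩
      exact h3 (h L₁ L₂ (adm_inv hK h1 h2).1)
    rw [e, Set.ncard_empty]
    exact Nat.zero_le _
  · rintro ⟨φ, c, N₀, hφ, hw⟩
    obtain ⟨h, hh, hr⟩ := rate_pair (d := 4) (by omega) c N₀
    refine (promise (d := 4) (by omega) (Adm 4) (fun L₁ L₂ => PL (cx L₁) (cx L₂))
      (fun K₁ K₂ hK => ⟨hK.1, hK.2.1⟩) (fun K₁ K₂ L₁ L₂ hK h1 h2 => adm_inv hK h1 h2)
      ⟨true, fun K₁ K₂ hK h => ⟨fun _ => adm_empty hK h, fun _ => rfl⟩⟩).2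
      ⟨φ, h, hφ, hh, fun K₁ K₂ hK q N₁ N₂ h1 h2 => ?_⟩
    obtain ⟨a1, a2, a3⟩ := hr (K₁, K₂) q N₁ N₂ h1 h2
    exact a3 _ (hw K₁ K₂ hK N₁ N₂ a1 a2)

end Pool.Agent.Results.MP_d40431_gt.FewFailuresSuffice
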